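import Pool.Agent.Helper17.CB4

/-! For every `k` and all large `n` there is a separable nondegenerate family of `n` convex bodies in
three-dimensional space in which every `k` members are in convex position, but not all members. -/

namespace Pool.Agent.Results.MP_41a254_co.KWiseNotGlobal

open Pool.Agent.Helper17.CB

theorem result : ∀ k : ℕ, 0 < k → ∃ N : ℕ, ∀ n : ℕ, N ≤ n → ∃ F : Fin n → Set E3,
    Function.Injective F ∧ (∀ i, IsBody (F i)) ∧ Separable F ∧ Nondegenerate F ∧
    (∀ s : Finset (Fin n), s.card = k → ConvexPosition F ↑s) ∧ ¬ ConvexPosition F Set.univ := by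
  intro k _
  refine ⟨max (k + 1) 5, fun n hn => ?_⟩
  obtain ⟨F, h1, h2, h3, h4, h5, h6⟩ := main n ((le_max_right _ _).trans hn)
  refine ⟨F, h1, h2, h3, h4, fun s hs => h5 _ fun h => ?_, h6⟩
  have h7 : s = Finset.univ := by
    rw [← Finset.coe_eq_univ]; exact h
  rw [h7, Finset.card_univ, Fintype.card_fin] at hs
  have := (le_max_left _ _).trans hn
  omega

end Pool.Agent.Results.MP_41a254_co.KWiseNotGlobal
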